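import Mathlib

/-!
# Project CD (MP_79abb3_an): closed rectangular ducts

THEOREM. In a piece `(0,A) x (0,B) x (-c,c)` of a rectangular duct with four no-slip walls let `u` be a
parallel solution of the Navier-Stokes equations (`u = (0,0,w)`, any pressure) on `[0,T]` with `u(T) = 0`.
If the initial profile is `κ` times the Poiseuille profile up to finitely many Fourier modes, then
`u = 0` on `[0,T]`. So Poiseuille flow, and every flow with finitely many modes, cannot be stopped, and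
a flow which is at rest at two times is at rest in between (in contrast with round pipes).

Every stub: file `Pool/Agent/H74/CD/T/NAME.lean`, `import Pool.Agent.H74.CD.Stm`, namespace
`Pool.Agent.H74.CD.T.NAME`, `theorem main : S_NAME` (used stubs as hypotheses:
`theorem main (h : S_IBP) : S_GRN`). Only Mathlib is needed (LAP: library file `VT/Muntz`).
-/

set_option autoImplicit false

namespace Pool.Agent.H74.CD

open MeasureTheory Filter Topology Set intervalIntegral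

/-- the eigenvalue `(m π / A)² + (n π / B)²` -/
noncomputable def lam (A B : ℝ) (m n : ℕ) : ℝ := (m * Real.pi / A) ^ 2 + (n * Real.pi / B) ^ 2

/-- the mode of number `m` of the interval `[p, q]` -/
noncomputable def md (m : ℕ) (p q x : ℝ) : ℝ := Real.sin (m * Real.pi * (x - p) / (q - p))

/-- Fourier coefficient of number `(m, n)` on the rectangle `[0, A] x [0, B]` (not normalised) -/
noncomputable def coef (A B : ℝ) (m n : ℕ) (v : ℝ → ℝ → ℝ) : ℝ :=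
  ∫ x in (0 : ℝ)..A, ∫ y in (0 : ℝ)..B, v x y * (md m 0 A x * md n 0 B y)

/-- coefficient on the smaller rectangle `[ε, A - ε] x [ε, B - ε]`, with the modes of this rectangle -/
noncomputable def coefE (A B ε : ℝ) (m n : ℕ) (v : ℝ → ℝ → ℝ) : ℝ :=
  ∫ x in ε..(A - ε), ∫ y in ε..(B - ε), v x y * (md m ε (A - ε) x * md n ε (B - ε) y)

/-- the boundary term of the smaller rectangle -/
noncomputable def bd (A B ε : ℝ) (m n : ℕ) (v : ℝ → ℝ → ℝ) : ℝ :=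
  (m * Real.pi / (A - 2 * ε)) *
      (∫ y in ε..(B - ε), ((-1) ^ m * v (A - ε) y - v ε y) * md n ε (B - ε) y) +
    (n * Real.pi / (B - 2 * ε)) *
      ∫ x in ε..(A - ε), ((-1) ^ n * v x (B - ε) - v x ε) * md m ε (A - ε) x

/-- `w` is continuous on `[0,T] x [0,A] x [0,B]`, vanishes on the sides of the rectangle, and
`w_t = w_xx + w_yy + g(t)` in the open rectangle for `0 < t < T` (classical in the interior only). -/
structure Heat (A B T : ℝ) (w wt wx wy wxx wyy : ℝ → ℝ → ℝ → ℝ) (g : ℝ → ℝ) : Prop where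
  cont : ContinuousOn (fun q : ℝ × ℝ × ℝ => w q.1 q.2.1 q.2.2) (Icc 0 T ×ˢ (Icc 0 A ×ˢ Icc 0 B))
  wall : ∀ t ∈ Ioo 0 T, ∀ x ∈ Icc 0 A, ∀ y ∈ Icc 0 B, (x = 0 ∨ x = A ∨ y = 0 ∨ y = B) →
    w t x y = 0
  ct : ContinuousOn (fun q : ℝ × ℝ × ℝ => wt q.1 q.2.1 q.2.2) (Ioo 0 T ×ˢ (Ioo 0 A ×ˢ Ioo 0 B))
  cxx : ContinuousOn (fun q : ℝ × ℝ × ℝ => wxx q.1 q.2.1 q.2.2) (Ioo 0 T ×ˢ (Ioo 0 A ×ˢ Ioo 0 B))
  cyy : ContinuousOn (fun q : ℝ × ℝ × ℝ => wyy q.1 q.2.1 q.2.2) (Ioo 0 T ×ˢ (Ioo 0 A ×ˢ Ioo 0 B))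
  dt : ∀ t ∈ Ioo 0 T, ∀ x ∈ Ioo 0 A, ∀ y ∈ Ioo 0 B, HasDerivAt (fun s => w s x y) (wt t x y) t
  dx : ∀ t ∈ Ioo 0 T, ∀ x ∈ Ioo 0 A, ∀ y ∈ Ioo 0 B, HasDerivAt (fun z => w t z y) (wx t x y) x
  dy : ∀ t ∈ Ioo 0 T, ∀ x ∈ Ioo 0 A, ∀ y ∈ Ioo 0 B, HasDerivAt (fun z => w t x z) (wy t x y) y
  dxx : ∀ t ∈ Ioo 0 T, ∀ x ∈ Ioo 0 A, ∀ y ∈ Ioo 0 B, HasDerivAt (fun z => wx t z y) (wxx t x y) x
  dyy : ∀ t ∈ Ioo 0 T, ∀ x ∈ Ioo 0 A, ∀ y ∈ Ioo 0 B, HasDerivAt (fun z => wy t x z) (wyy t x y) y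
  gc : ContinuousOn g (Ioo 0 T)
  eq : ∀ t ∈ Ioo 0 T, ∀ x ∈ Ioo 0 A, ∀ y ∈ Ioo 0 B, wt t x y = wxx t x y + wyy t x y + g t

/-- Poiseuille profile of the rectangle: continuous on the closed rectangle, zero on its sides,
`P_xx + P_yy = -1` in the interior, with continuous `P_xx`, `P_yy` there. -/
def Pois (A B : ℝ) (P : ℝ → ℝ → ℝ) : Prop :=
  ContinuousOn (fun q : ℝ × ℝ => P q.1 q.2) (Icc 0 A ×ˢ Icc 0 B) ∧
  (∀ x ∈ Icc 0 A, ∀ y ∈ Icc 0 B, (x = 0 ∨ x = A ∨ y = 0 ∨ y = B) → P x y = 0) ∧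
  ∃ Px Py Pxx Pyy : ℝ → ℝ → ℝ,
    ContinuousOn (fun q : ℝ × ℝ => Pxx q.1 q.2) (Ioo 0 A ×ˢ Ioo 0 B) ∧
    ContinuousOn (fun q : ℝ × ℝ => Pyy q.1 q.2) (Ioo 0 A ×ˢ Ioo 0 B) ∧
    ∀ x ∈ Ioo 0 A, ∀ y ∈ Ioo 0 B,
      HasDerivAt (fun z => P z y) (Px x y) x ∧ HasDerivAt (fun z => P x z) (Py x y) y ∧
      HasDerivAt (fun z => Px z y) (Pxx x y) x ∧ HasDerivAt (fun z => Py x z) (Pyy x y) y ∧
      Pxx x y + Pyy x y = -1

/-! ## Fourier coefficients -/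

/-- **IBP** (50 lines). Two integrations by parts: `s(x) = sin(ω (x-p))`, `ω = m π/(q-p)`, `s(p) = s(q) = 0`,
`s' (q) = ω (-1)^m`, `s'(p) = ω`, `s'' = - ω² s`: `∫ f'' s = [f' s] - [f s'] + ∫ f s''`. -/
def S_IBP : Prop := ∀ (p q : ℝ) (m : ℕ), p < q → ∀ f f' f'' : ℝ → ℝ,
  (∀ x ∈ Icc p q, HasDerivAt f (f' x) x) → (∀ x ∈ Icc p q, HasDerivAt f' (f'' x) x) →
  ContinuousOn f'' (Icc p q) →
  ∫ x in p..q, f'' x * md m p q x =
    -(m * Real.pi / (q - p)) * ((-1) ^ m * f q - f p) -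
      (m * Real.pi / (q - p)) ^ 2 * ∫ x in p..q, f x * md m p q x

/-- **GRN** (100 lines). Green's identity on the smaller rectangle at a fixed time.
`theorem main (h : S_IBP) : S_GRN`.
PROOF. IBP in `x` for every `y` in `[ε, B-ε]` (exchange the order of integration by
`intervalIntegral_integral_interchange` or `integral_integral_swap`, everything is continuous on the compact rectangle
`[ε, A-ε] x [ε, B-ε]`; continuity of `w t` there is `cont`), and IBP in `y` for every `x`; add. Note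
`(A - ε) - ε = A - 2 ε`. -/
def S_GRN : Prop := ∀ (A B T : ℝ) (w wt wx wy wxx wyy : ℝ → ℝ → ℝ → ℝ) (g : ℝ → ℝ),
  0 < A → 0 < B → Heat A B T w wt wx wy wxx wyy g → ∀ (m n : ℕ) (ε : ℝ), 0 < ε → 2 * ε < A → 2 * ε < B →
  ∀ t ∈ Ioo 0 T, coefE A B ε m n (fun x y => wxx t x y + wyy t x y) =
    -(lam (A - 2 * ε) (B - 2 * ε) m n) * coefE A B ε m n (w t) - bd A B ε m n (w t)

/-- **ODE** (100 lines). `theorem main (h : S_GRN) : S_ODE`.
PROOF. Differentiate under the integral sign (`hasDerivAt_integral_of_dominated_loc_of_deriv_le`, twice, or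
once for the double integral over the compact rectangle; `wt` is continuous, hence bounded, on
`[t-δ, t+δ] x [ε, A-ε] x [ε, B-ε]`): the derivative of `coefE (w s)` is `coefE (wt t)`, and `wt = wxx + wyy + g t`
by `eq`; GRN and linearity. -/
def S_ODE : Prop := ∀ (A B T : ℝ) (w wt wx wy wxx wyy : ℝ → ℝ → ℝ → ℝ) (g : ℝ → ℝ),
  0 < A → 0 < B → Heat A B T w wt wx wy wxx wyy g → ∀ (m n : ℕ) (ε : ℝ), 0 < ε → 2 * ε < A → 2 * ε < B →
  ∀ t ∈ Ioo 0 T, HasDerivAt (fun s => coefE A B ε m n (w s))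
    (-(lam (A - 2 * ε) (B - 2 * ε) m n) * coefE A B ε m n (w t) - bd A B ε m n (w t) +
      g t * coefE A B ε m n (fun _ _ => 1)) t

/-- **CEL** (80 lines). Limits as `ε → 0`.
PROOF. `coefE` tends to `coef`: write the integrals over `[0,A] x [0,B]` with indicators (or substitute
`x = ε + (A - 2ε) x'/A`, `y` likewise, which gives `coefE A B ε m n v = (A-2ε)(B-2ε)/(AB) ∫∫ v(..,..) md m 0 A x' md n 0 B y'`,
then uniform continuity of `v`). Uniformly for `t ∈ [s₁, s₂]`: by uniform continuity of `w` on the compact set. -/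
def S_CEL : Prop := ∀ (A B s₁ s₂ : ℝ) (w : ℝ → ℝ → ℝ → ℝ), 0 < A → 0 < B →
  ContinuousOn (fun q : ℝ × ℝ × ℝ => w q.1 q.2.1 q.2.2) (Icc s₁ s₂ ×ˢ (Icc 0 A ×ˢ Icc 0 B)) →
  ∀ m n : ℕ, ∀ δ : ℝ, 0 < δ → ∃ ε₀ : ℝ, 0 < ε₀ ∧ 2 * ε₀ < A ∧ 2 * ε₀ < B ∧ ∀ ε, 0 < ε → ε < ε₀ →
    ∀ t ∈ Icc s₁ s₂, |coefE A B ε m n (w t) - coef A B m n (w t)| ≤ δ

/-- **BDL** (80 lines). The boundary term tends to zero uniformly in `t ∈ [s₁, s₂]` if `w` vanishes on the sides.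
PROOF. Uniform continuity of `w` on the compact set: `|w t (A-ε) y|, |w t ε y| ≤ δ'` etc. for small `ε`;
`|md| ≤ 1`, the lengths are `≤ A, B`, and `A - 2ε ≥ A/2`. -/
def S_BDL : Prop := ∀ (A B s₁ s₂ : ℝ) (w : ℝ → ℝ → ℝ → ℝ), 0 < A → 0 < B →
  ContinuousOn (fun q : ℝ × ℝ × ℝ => w q.1 q.2.1 q.2.2) (Icc s₁ s₂ ×ˢ (Icc 0 A ×ˢ Icc 0 B)) →
  (∀ t ∈ Icc s₁ s₂, ∀ x ∈ Icc 0 A, ∀ y ∈ Icc 0 B, (x = 0 ∨ x = A ∨ y = 0 ∨ y = B) → w t x y = 0) →
  ∀ m n : ℕ, ∀ δ : ℝ, 0 < δ → ∃ ε₀ : ℝ, 0 < ε₀ ∧ 2 * ε₀ < A ∧ 2 * ε₀ < B ∧ ∀ ε, 0 < ε → ε < ε₀ →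
    ∀ t ∈ Icc s₁ s₂, |bd A B ε m n (w t)| ≤ δ

/-- **LIM** (130 lines). `theorem main (ho : S_ODE) (hc : S_CEL) (hb : S_BDL) : S_LIM`.
PROOF. For small `ε` integrate ODE on `[s,t]`: with `I_ε = coefE (w ·)`, `λ_ε = lam (A-2ε) (B-2ε) m n`,
`e^{λ_ε t} I_ε(t) - e^{λ_ε s} I_ε(s) = ∫_s^t e^{λ_ε r} (g(r) c_ε - bd_ε(r)) dr` (`integral_eq_sub_of_hasDerivAt`; the
right side is continuous on `[s,t]`: `bd` and `coefE` are continuous in time because `w` is). Let `ε → 0` along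
`ε = 1/(k+1)`: `λ_ε → λ`, CEL for `w` and for the constant `1`, BDL; the integrals converge (uniform
convergence of the integrand on `[s,t]`). -/
def S_LIM : Prop := ∀ (A B T : ℝ) (w wt wx wy wxx wyy : ℝ → ℝ → ℝ → ℝ) (g : ℝ → ℝ),
  0 < A → 0 < B → Heat A B T w wt wx wy wxx wyy g → ∀ m n : ℕ, ∀ s t : ℝ, 0 < s → s ≤ t → t < T →
  Real.exp (lam A B m n * t) * coef A B m n (w t) - Real.exp (lam A B m n * s) * coef A B m n (w s) =
    coef A B m n (fun _ _ => 1) * ∫ r in s..t, Real.exp (lam A B m n * r) * g r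

/-- **ONE** (60 lines). The coefficients of the constant `1`:
`∫_0^A sin(mπx/A) dx = A/(mπ) (1 - cos(mπ)) = A/(mπ) (1 - (-1)^m)`, zero for even `m`. -/
def S_ONE : Prop := ∀ A B : ℝ, 0 < A → 0 < B → ∀ m n : ℕ,
  (Odd m → Odd n → 0 < coef A B m n (fun _ _ => 1)) ∧
    coef A B m n (fun _ _ => 1) =
      (∫ x in (0 : ℝ)..A, md m 0 A x) * ∫ y in (0 : ℝ)..B, md n 0 B y

/-- **HH** (150 lines). The primitive of `g` is continuous up to the end points.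
`theorem main (hl : S_LIM) (h1 : S_ONE) : S_HH`.
PROOF. `h(t) = (ŵ(t) - ŵ(0) + λ ∫_0^t ŵ) / c` with `ŵ, λ, c` the data of `(1,1)`, `c > 0` by ONE; continuous on
`[0,T]` because `t ↦ coef (w t)` is (`w` continuous on a compact set), `h(0) = 0`. In `(0,T)`: by LIM
`(e^{λt} ŵ)' = c e^{λt} g`, so `ŵ' = - λ ŵ + c g`, `h' = g`. For every `(m,n)`, with its own `λ, c, ŵ`:
`(e^{λt} ŵ)' = c e^{λt} h'`, integrate by parts on `[s,t] ⊂ (0,T)`:
`e^{λt} ŵ(t) - e^{λs} ŵ(s) = c (e^{λt} h(t) - e^{λs} h(s) - λ ∫_s^t e^{λr} h(r) dr)`, and let `s → 0`, `t → T` by continuity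
of both sides. -/
def S_HH : Prop := ∀ (A B T : ℝ) (w wt wx wy wxx wyy : ℝ → ℝ → ℝ → ℝ) (g : ℝ → ℝ),
  0 < A → 0 < B → 0 < T → Heat A B T w wt wx wy wxx wyy g →
  ∃ h : ℝ → ℝ, ContinuousOn h (Icc 0 T) ∧ ∀ m n : ℕ, ∀ t ∈ Icc 0 T,
    Real.exp (lam A B m n * t) * coef A B m n (w t) - coef A B m n (w 0) =
      coef A B m n (fun _ _ => 1) * (Real.exp (lam A B m n * t) * h t -
        lam A B m n * ∫ s in (0 : ℝ)..t, Real.exp (lam A B m n * s) * h s)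

/-- **PCO** (60 lines). Coefficients of the Poiseuille profile. `theorem main (hl : S_LIM) : S_PCO`.
PROOF. `w t x y = P x y`, `g = 1`, `T = 3` is a `Heat` solution; LIM with `s = 1`, `t = 2`:
`(e^{2λ} - e^{λ}) P̂ = c (e^{2λ} - e^{λ})/λ`, `λ > 0`. -/
def S_PCO : Prop := ∀ (A B : ℝ) (P : ℝ → ℝ → ℝ), 0 < A → 0 < B → Pois A B P → ∀ m n : ℕ, 1 ≤ m → 1 ≤ n →
  lam A B m n * coef A B m n P = coef A B m n (fun _ _ => 1)

/-- **CPL1** (80 lines). Completeness of the sines.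
PROOF. With `θ = π x/A`: `sin((k+1)θ) = U_k(cos θ) sin θ` (`Polynomial.Chebyshev.U_real_cos`), and the `U_k` span the
polynomials, so `∫ f(x) sin(πx/A) q(cos(πx/A)) dx = 0` for all polynomials `q`; alternatively `cos^k θ sin θ` is a
combination of sines (induction: `2 cos θ sin(jθ) = sin((j+1)θ) + sin((j-1)θ)`). `x ↦ cos(πx/A)` is injective on `[0,A]`, so by
Stone-Weierstrass (`ContinuousMap.subalgebra_topologicalClosure_eq_top_of_separatesPoints`, or Weierstrass after the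
substitution) `∫ f sin(πx/A) φ = 0` for all continuous `φ`; take `φ = f`: `∫ f² sin = 0`, so `f = 0` in `(0,A)`. -/
def S_CPL1 : Prop := ∀ A : ℝ, 0 < A → ∀ f : ℝ → ℝ, ContinuousOn f (Icc 0 A) →
  (∀ m : ℕ, 1 ≤ m → ∫ x in (0 : ℝ)..A, f x * md m 0 A x = 0) → ∀ x ∈ Ioo 0 A, f x = 0

/-- **CPL** (60 lines). `theorem main (h : S_CPL1) : S_CPL`.
PROOF. For `n ≥ 1`, `F(x) = ∫_0^B v x y md n 0 B y dy` is continuous on `[0,A]` with all coefficients zero: `F = 0` in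
`(0,A)`; then CPL1 for `v x ·`. -/
def S_CPL : Prop := ∀ (A B : ℝ) (v : ℝ → ℝ → ℝ), 0 < A → 0 < B →
  ContinuousOn (fun q : ℝ × ℝ => v q.1 q.2) (Icc 0 A ×ˢ Icc 0 B) →
  (∀ m n : ℕ, 1 ≤ m → 1 ≤ n → coef A B m n v = 0) → ∀ x ∈ Ioo 0 A, ∀ y ∈ Ioo 0 B, v x y = 0

/-! ## The entire function -/

/-- **LAPI** (80 lines). Injectivity of the Laplace transform.
PROOF. For all polynomials `q`: `∫ H(σ) e^{-σ} q(e^{-σ}) dσ = 0`; `e^{-σ}` is injective on `[0,T]`, Stone-Weierstrass: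
`∫ H e^{-σ} φ = 0` for all continuous `φ`; `φ = H`. -/
def S_LAPI : Prop := ∀ T : ℝ, 0 < T → ∀ H : ℝ → ℝ, ContinuousOn H (Icc 0 T) →
  (∀ x : ℝ, 0 < x → ∫ σ in (0 : ℝ)..T, Real.exp (-(x * σ)) * H σ = 0) → ∀ σ ∈ Icc 0 T, H σ = 0

/-- **LAP** (150 lines). `theorem main (h : S_LAPI) : S_LAP`. Use the library theorem `muntz`
(`team-store fetch /workdir/pool Pool/Graph/R_pool_sql_team_seeded_2aa45f1a/Q231/VT/Muntz.lean`, import
`Pool.Graph.R_pool_sql_team_seeded_2aa45f1a.Q231.VT.Muntz`): an entire function which is bounded in `Re z ≥ 0`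
and vanishes on a set `S ⊂ [0,∞)` with `∑ 1/(1+a) = ∞` is zero.
PROOF. `E(z) = ∫_0^1 e^{-zτ} dτ`, `z E(z) = 1 - e^{-z}`, `K(z) = ∫_0^T e^{-zσ} H(σ) dσ`, both entire
(differentiate under the integral sign, `hasDerivAt_integral_of_dominated_loc_of_deriv_le`), `|E| ≤ 1`, `|K| ≤ T sup|H|` for
`Re z ≥ 0`. `f(z) = κ e^{-zT} E² + (1 - e^{-z}) (η E - (1 - e^{-z}) K) = E² (κ e^{-zT} + z η - z² K)` is entire, bounded in
`Re z ≥ 0` and zero on `S`; so `f = 0`. For real `x > 0`, `E(x) > 0`, so `κ e^{-xT} + x η = x² K(x)`. `x → 0`: `κ = 0`; then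
`η = x K(x)`, `x → 0`: `η = 0`; then `K(x) = 0` for `x > 0` and LAPI. -/
def S_LAP : Prop := ∀ T : ℝ, 0 < T → ∀ H : ℝ → ℝ, ContinuousOn H (Icc 0 T) → ∀ (κ η : ℝ) (S : Set ℝ),
  (∀ a ∈ S, 0 < a) → ¬ Summable (fun a : S => 1 / (1 + (a : ℝ))) →
  (∀ a ∈ S, κ * Real.exp (-(a * T)) + a * η = a ^ 2 * ∫ σ in (0 : ℝ)..T, Real.exp (-(a * σ)) * H σ) →
  κ = 0 ∧ η = 0 ∧ ∀ σ ∈ Icc 0 T, H σ = 0

/-! ## Eigenvalues -/

/-- **ENE** (100 lines). Multiplicative energy of an interval.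
PROOF. Let `k = gcd(x,z)`, `x = r k`, `z = s k`, `gcd(r,s) = 1`; `x y = z w` gives `r y = s w`, so `y = s l`, `w = r l`. The map
`(x,y,z,w) ↦ (r,s,k,l)` is injective, `r, s ≤ M` and `k, l ≤ M / max(r,s)`. So the number is at most
`∑_{r,s ≤ M} (M / max(r,s))² ≤ ∑_{t ≤ M} 2 t (M/t)² = 2 M² ∑ 1/t ≤ 2 M² (1 + log M)` (`harmonic_le_one_add_log`). -/
def S_ENE : Prop := ∀ M : ℕ, 1 ≤ M →
  (((Finset.Icc 1 M ×ˢ Finset.Icc 1 M ×ˢ Finset.Icc 1 M ×ˢ Finset.Icc 1 M).filter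
    (fun v : ℕ × ℕ × ℕ × ℕ => v.1 * v.2.1 = v.2.2.1 * v.2.2.2)).card : ℝ) ≤ 2 * M ^ 2 * (1 + Real.log M)

/-- **COI** (150 lines). Coincidences of the values of `α m² + β n²`. `theorem main (h : S_ENE) : S_COI`.
PROOF. `α (m² - m'²) = β (n'² - n²)`. If `α/β` is irrational: `m = m'`, `n = n'`, at most `N²` solutions. Otherwise
`α/β = p/q`, `p, q ≥ 1`: `p (m² - m'²) = q (n'² - n²)` in `ℤ`. Solutions with `m = m'` have `n = n'`: at most `N²`. If `m > m'`,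
put `a = m - m'`, `b = m + m'`, `c = n' - n`, `d = n' + n`, all in `[1, 4N]`, `(p a) b = (q c) d`; `(a,b,c,d)` determines
`(m,m',n,n')`; the quadruple `(p a, b, q c, d)` is counted in ENE for `M = 4 N max(p,q)`. The case `m < m'` is symmetric. -/
def S_COI : Prop := ∀ α β : ℝ, 0 < α → 0 < β → ∃ C : ℝ, 0 < C ∧ ∀ N : ℕ, 1 ≤ N →
  (((Finset.Ico N (2 * N) ×ˢ Finset.Ico N (2 * N) ×ˢ Finset.Ico N (2 * N) ×ˢ Finset.Ico N (2 * N)).filter
    (fun v : ℕ × ℕ × ℕ × ℕ => α * (v.1 : ℝ) ^ 2 + β * (v.2.1 : ℝ) ^ 2 =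
      α * (v.2.2.1 : ℝ) ^ 2 + β * (v.2.2.2 : ℝ) ^ 2)).card : ℝ) ≤ C * N ^ 2 * (1 + Real.log N)

/-- **CSQ** (30 lines). Cauchy-Schwarz: fibres of `f` on `X` (`Finset.card_eq_sum_card_image`, `inner_mul_le_norm_mul_norm`
or `Finset.sum_mul_sq_le_sq_mul_sq`/`sq_sum_le_card_mul_sum_sq`). -/
def S_CSQ : Prop := ∀ (X : Finset (ℕ × ℕ)) (f : ℕ × ℕ → ℝ),
  (X.card : ℝ) ^ 2 ≤ ((X.image f).card : ℝ) * (((X ×ˢ X).filter (fun v => f v.1 = f v.2)).card : ℝ)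

/-- the eigenvalues of the modes with nonzero mean -/
def Lam (A B : ℝ) : Set ℝ := {s | ∃ m n : ℕ, Odd m ∧ Odd n ∧ s = lam A B m n}

/-- **DIV** (150 lines). `theorem main (hc : S_COI) (hs : S_CSQ) : S_DIV`.
PROOF. `α = (π/A)²`, `β = (π/B)²`, `lam = α m² + β n²`. For `N = 2^j`, `j ≥ 1`, `X` = pairs of odd numbers in
`[N, 2N)` (`card = (N/2)²`); by CSQ and COI the number of values is at least `(N/2)^4 / (C N² (1 + log N)) = c N²/(1 + log N)`.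
The values lie in `[(α+β) 4^j, (α+β) 4^{j+1})`, disjoint for different `j`. If the sum were finite, it would be at
least `∑_{j ≥ j₀} (c 4^j/(1 + j)) / (1 + (α+β) 4^{j+1}) ≥ c' ∑ 1/(1+j) = ∞`, where `j₀` is so large that the finite set `F` is
below `(α+β) 4^{j₀}`. (Use: a summable nonnegative function has bounded finite sums; take the union of the
value sets for `j₀ ≤ j < J`.) -/
def S_DIV : Prop := ∀ A B : ℝ, 0 < A → 0 < B → ∀ F : Finset ℝ,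
  ¬ Summable (fun a : ↥(Lam A B \ (F : Set ℝ)) => 1 / (1 + (a : ℝ)))

/-! ## The theorem for the heat equation -/

/-- **MAIN** (120 lines). `theorem main (hh : S_HH) (h1 : S_ONE) (hp : S_PCO) (hc : S_CPL) (hl : S_LAP) (hd : S_DIV) : S_MAIN`.
PROOF. (PCO is used if `κ ≠ 0`; for `κ = 0` the right side is `0`.) Let `h` be as in HH. For odd `m, n` with `(m,n) ∉ F`, at `t = T` (`coef (w T) = 0`), `c > 0`, and `coef (w 0) = κ c/λ`:
`-κ/λ = e^{λT} h(T) - λ ∫_0^T e^{λs} h(s) ds`. Multiply by `-λ e^{-λT}` and substitute `s = T - σ`, `H(σ) = h(T - σ)`: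
`κ e^{-λT} + λ h(T) = λ² ∫_0^T e^{-λσ} H(σ) dσ`. `S = Lam A B \ {lam A B m n : (m,n) ∈ F}`; by DIV, LAP: `κ = 0`, `h = 0` on `[0,T]`.
So `e^{λt} ŵ(t) = ŵ(0)` for all `m,n ≥ 1`, `t ∈ [0,T]`; `t = T`: `ŵ(0) = 0`; so `ŵ(t) = 0`, and CPL; on the sides of the
rectangle by continuity (closure of the open rectangle). -/
def S_MAIN : Prop := ∀ (A B T : ℝ) (w wt wx wy wxx wyy : ℝ → ℝ → ℝ → ℝ) (g : ℝ → ℝ),
  0 < A → 0 < B → 0 < T → Heat A B T w wt wx wy wxx wyy g →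
  (∀ x ∈ Ioo 0 A, ∀ y ∈ Ioo 0 B, w T x y = 0) →
  ∀ (P : ℝ → ℝ → ℝ) (κ : ℝ) (F : Finset (ℕ × ℕ)), (κ ≠ 0 → Pois A B P) →
  (∀ m n : ℕ, 1 ≤ m → 1 ≤ n → (m, n) ∉ F → coef A B m n (w 0) = κ * coef A B m n P) →
  κ = 0 ∧ ∀ t ∈ Icc 0 T, ∀ x ∈ Icc 0 A, ∀ y ∈ Icc 0 B, w t x y = 0

/-! ## The Navier-Stokes equations -/

/-- partial derivative in the direction `i` -/
noncomputable def pd (i : Fin 3) (f : (Fin 3 → ℝ) → ℝ) (x : Fin 3 → ℝ) : ℝ :=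
  fderiv ℝ f x (Pi.single i 1)

/-- the piece `(0,A) x (0,B) x (-c,c)` of the duct -/
def Duct (A B c : ℝ) : Set (Fin 3 → ℝ) := {x | 0 < x 0 ∧ x 0 < A ∧ 0 < x 1 ∧ x 1 < B ∧ |x 2| < c}

/-- the same piece with its four walls -/
def Walled (A B c : ℝ) : Set (Fin 3 → ℝ) := {x | 0 ≤ x 0 ∧ x 0 ≤ A ∧ 0 ≤ x 1 ∧ x 1 ≤ B ∧ |x 2| < c}

/-- `u`, `p` is a parallel solution on `[0,T]` of the Navier-Stokes equations (unit viscosity) in the piece of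
the duct which vanishes on the four walls: `u` is continuous on `[0,T] x` (piece with walls), has only an axial
component, and in the open piece for `0 < t < T`: `u` is jointly `C¹`, `u(t)` is `C²` with second derivatives
`∂_i² u_k` continuous in `(t,x)`, `p(t)` is differentiable, the momentum equation and `div u = 0` hold. -/
structure Parallel (A B c T : ℝ) (u : ℝ → (Fin 3 → ℝ) → (Fin 3 → ℝ)) (p : ℝ → (Fin 3 → ℝ) → ℝ) :
    Prop where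
  cont : ContinuousOn (fun q : ℝ × (Fin 3 → ℝ) => u q.1 q.2) (Icc 0 T ×ˢ Walled A B c)
  axial : ∀ t ∈ Icc 0 T, ∀ x ∈ Walled A B c, u t x 0 = 0 ∧ u t x 1 = 0
  wall : ∀ t ∈ Ioo 0 T, ∀ x ∈ Walled A B c, x ∉ Duct A B c → u t x = 0
  one : ContDiffOn ℝ 1 (fun q : ℝ × (Fin 3 → ℝ) => u q.1 q.2) (Ioo 0 T ×ˢ Duct A B c)
  two : ∀ t ∈ Ioo 0 T, ContDiffOn ℝ 2 (u t) (Duct A B c)
  second : ∀ i k : Fin 3, ContinuousOn
    (fun q : ℝ × (Fin 3 → ℝ) => pd i (fun y => pd i (fun z => u q.1 z k) y) q.2)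
      (Ioo 0 T ×ˢ Duct A B c)
  pressure : ∀ t ∈ Ioo 0 T, DifferentiableOn ℝ (p t) (Duct A B c)
  momentum : ∀ t ∈ Ioo 0 T, ∀ x ∈ Duct A B c, ∀ k : Fin 3,
    deriv (fun s => u s x k) t + ∑ i, u t x i * pd i (fun y => u t y k) x =
      (∑ i, pd i (fun y => pd i (fun z => u t z k) y) x) - pd k (p t) x
  div : ∀ t ∈ Ioo 0 T, ∀ x ∈ Duct A B c, ∑ i, pd i (fun y => u t y i) x = 0

/-- **NSI** (80 lines). The axial velocity does not depend on the axial variable.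
PROOF. In the open piece `u_0 = u_1 = 0` near `x`, so `pd 0 u_0 = pd 1 u_1 = 0` and `div` gives `pd 2 u_2 = 0`: constant on
segments in the direction `2` (`is_const_of_deriv_eq_zero` on an interval / mean value). For points of the walls: both
values are `0` for `0 < t < T` (`wall`), and for `t = 0, T` by continuity in `t`. -/
def S_NSI : Prop := ∀ (A B c T : ℝ) (u : ℝ → (Fin 3 → ℝ) → (Fin 3 → ℝ)) (p : ℝ → (Fin 3 → ℝ) → ℝ),
  0 < A → 0 < B → 0 < c → 0 < T → Parallel A B c T u p →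
  ∀ t ∈ Icc 0 T, ∀ x ∈ Walled A B c, u t x 2 = u t ![x 0, x 1, 0] 2

/-- **NSR** (180 lines). Reduction to the heat equation. `theorem main (h : S_NSI) : S_NSR`.
PROOF. `w t x y = u t ![x,y,0] 2`, derivatives by the chain rule along `z ↦ ![z,y,0]` (direction `Pi.single 0 1`) and
`z ↦ ![x,z,0]`: `wx = pd 0 (u_2)`, `wxx = pd 0 (pd 0 u_2)`, `wyy`, `wt = deriv`. Convective term: `u_0 = u_1 = 0`,
`pd 2 u_2 = 0` by NSI. `pd 2 (pd 2 u_2) = 0`. Pressure: for `k = 0, 1` the momentum equation gives `pd k (p t) = 0`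
(`u_k = 0` near `x`, also in time), for `k = 2`: `pd 2 (p t) x = - (wt - wxx - wyy)(t, x 0, x 1)`. So `p t x` depends only
on `x 2`, hence `pd 2 (p t) x` also; and it depends only on `(x 0, x 1)`: it is a constant `-g(t)`; `g t` is
`wt - wxx - wyy` at the centre `(A/2, B/2)`, continuous in `t` (the derivative in `t` is continuous by `one`). -/
def S_NSR : Prop := ∀ (A B c T : ℝ) (u : ℝ → (Fin 3 → ℝ) → (Fin 3 → ℝ)) (p : ℝ → (Fin 3 → ℝ) → ℝ),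
  0 < A → 0 < B → 0 < c → 0 < T → Parallel A B c T u p →
  ∃ (wt wx wy wxx wyy : ℝ → ℝ → ℝ → ℝ) (g : ℝ → ℝ),
    Heat A B T (fun t x y => u t ![x, y, 0] 2) wt wx wy wxx wyy g

/-- **FIN**: the theorem. `theorem main (hi : S_NSI) (hr : S_NSR) (hm : S_MAIN) : S_FIN`. -/
def S_FIN : Prop := ∀ (A B c T : ℝ), 0 < A → 0 < B → 0 < c → 0 < T →
  ∀ (u : ℝ → (Fin 3 → ℝ) → (Fin 3 → ℝ)) (p : ℝ → (Fin 3 → ℝ) → ℝ), Parallel A B c T u p →
  (∀ x ∈ Duct A B c, u T x = 0) →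
  ∀ (P : ℝ → ℝ → ℝ) (κ : ℝ) (F : Finset (ℕ × ℕ)), (κ ≠ 0 → Pois A B P) →
  (∀ m n : ℕ, 1 ≤ m → 1 ≤ n → (m, n) ∉ F →
    coef A B m n (fun x y => u 0 ![x, y, 0] 2) = κ * coef A B m n P) →
  κ = 0 ∧ ∀ t ∈ Icc 0 T, ∀ x ∈ Walled A B c, u t x = 0

end Pool.Agent.H74.CD
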